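import Pool.Agent.Helper74.LL.GoalsI
import Pool.Agent.Helper64.AM.AJ

/-!
# Project LL (MP_cc6379_al), packet IP8 (helper50): P1, P4 and the upper bound imply weak P8
-/

set_option autoImplicit false

open LaurentPolynomial Pool.Agent.Helper15.RA Pool.Agent.Helper45.AM
open Pool.Agent.Helper64.AM (coeff_fsum cz nz cz_zero assocH trace0)

noncomputable section

namespace Pool.Agent.Helper50.LL.IP8

section

variable {S W H : Type} [Group W] [Ring H] [Algebra ℤ[T;T⁻¹] H] (X : Base S W H) {a : W → ℕ}

open Classical in
/-- the trace of a product -/
theorem trJ (hdeg : ∀ x y z, DegLE (a z) (X.h x y z))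
    (hp1 : ∀ z, DegLE (-(a z : ℤ)) (X.D.t.repr (X.D.c z) 1)) (x y : W) (Z : Finset W)
    (hZ : (X.h x y).support ⊆ Z) :
    ∑ z ∈ Z, cz X a x y z * nz X a z = if x * y = 1 then 1 else 0 := by
  have h0 : ∑ z ∈ (X.h x y).support, cz X a x y z * nz X a z = if x * y = 1 then 1 else 0 := by
    rw [← trace0 X g_h1 g_h2 x y]
    have h3 : X.D.t.repr (X.D.c x * X.D.c y) 1 =
        ∑ z ∈ (X.h x y).support, X.h x y z * X.D.t.repr (X.D.c z) 1 := by
      rw [X.isH x y, Finsupp.sum, map_sum, Finsupp.finsetSum_apply]
      refine Finset.sum_congr rfl fun z _ => ?_
      rw [map_smul, Finsupp.smul_apply, smul_eq_mul]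
    rw [h3, coeff_fsum]
    refine Finset.sum_congr rfl fun z _ => ?_
    have h4 := coeff_mul_top (hdeg x y z) (hp1 z)
    rw [add_neg_cancel] at h4
    rw [h4]
    rfl
  rw [← h0]
  symm
  refine Finset.sum_subset hZ fun z _ hz => ?_
  rw [cz_zero X (Finsupp.notMem_support_iff.1 hz), zero_mul]

/-- the coefficient of `v^(2M)` in a product `h x y u * h u w z` -/
theorem co (hdeg : ∀ x y z, DegLE (a z) (X.h x y z)) {M : ℕ} {z u : W} {p q : W} {r s : W}
    (hz : a z = M) (hu : X.h r s z ≠ 0 → a u ≤ M) :
    (X.h p q u * X.h r s z).coeff ((M : ℤ) + M) =
      if a u = M then cz X a p q u * cz X a r s z else 0 := by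
  by_cases h0 : X.h r s z = 0
  · rw [h0, mul_zero, cz_zero X h0, mul_zero, ite_self]
    rfl
  · have h1 := hu h0
    have h2 : DegLE (M : ℤ) (X.h p q u) := (hdeg p q u).mono (by exact_mod_cast h1)
    have h3 : DegLE (M : ℤ) (X.h r s z) := by
      have := hdeg r s z
      rwa [hz] at this
    rw [coeff_mul_top h2 h3]
    split_ifs with h
    · unfold cz
      rw [h, hz]
    · rw [hdeg p q u (M : ℤ) (by exact_mod_cast lt_of_le_of_ne h1 h), zero_mul]

open Classical in
/-- associativity at the top degree -/
theorem assoc2 (hrep : ∀ x y, X.b.repr (X.D.c x * X.D.c y) = X.h x y)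
    (hdeg : ∀ x y z, DegLE (a z) (X.h x y z))
    (hp4 : ∀ x y z, X.h x y z ≠ 0 → a x ≤ a z ∧ a y ≤ a z) {M : ℕ} (x y w z : W) (hz : a z = M) :
    ∑ u ∈ (X.h x y).support, (if a u = M then cz X a x y u * cz X a u w z else 0) =
      ∑ u ∈ (X.h y w).support, (if a u = M then cz X a y w u * cz X a x u z else 0) := by
  have h7 := congrArg (fun p : ℤ[T;T⁻¹] => p.coeff ((M : ℤ) + M)) (assocH X hrep x y w z)
  simp only [coeff_fsum] at h7
  have e1 : ∀ u ∈ (X.h x y).support, (X.h x y u * X.h u w z).coeff ((M : ℤ) + M) =
      if a u = M then cz X a x y u * cz X a u w z else 0 := fun u _ =>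
    co X hdeg hz fun h => by
      have := (hp4 u w z h).1
      rwa [hz] at this
  have e2 : ∀ u ∈ (X.h y w).support, (X.h y w u * X.h x u z).coeff ((M : ℤ) + M) =
      if a u = M then cz X a y w u * cz X a x u z else 0 := fun u _ =>
    co X hdeg hz fun h => by
      have := (hp4 x u z h).2
      rwa [hz] at this
  rw [Finset.sum_congr rfl e1, Finset.sum_congr rfl e2] at h7
  exact h7

end

theorem t : Pool.Agent.Helper74.LL.IP8 := by
  classical
  intro S W H _ _ _ X a hN hdeg hp1 hp4 hinv
  obtain ⟨N, hN⟩ := hN
  have hrep := (Pool.Agent.Helper15.AM.k_ab S W H X).1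
  -- the claim, by descending induction on `M`
  have key : ∀ k M : ℕ, N + 1 ≤ M + k → ∀ x y z, a z = M → cz X a x y z ≠ 0 → a x = M ∧ a y = M := by
    intro k
    induction k with
    | zero =>
      intro M hM x y z hz _
      have := hN z
      omega
    | succ k ih =>
      intro M hM
      have big : ∀ x y z, M < a z → cz X a x y z ≠ 0 → a x = a z ∧ a y = a z := fun x y z hz h =>
        ih (a z) (by omega) x y z rfl h
      -- traces restricted to `a z = M`
      have tr : ∀ x y (Z : Finset W), (X.h x y).support ⊆ Z → (a x = M ∨ a y = M) →
          ∑ z ∈ Z, (if a z = M then cz X a x y z * nz X a z else 0) =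
            if x * y = 1 then 1 else 0 := by
        intro x y Z hZ hxy
        rw [← trJ X hdeg hp1 x y Z hZ]
        refine Finset.sum_congr rfl fun z _ => ?_
        split_ifs with hz
        · rfl
        · by_cases hc : cz X a x y z = 0
          · rw [hc, zero_mul]
          · exfalso
            have hne : X.h x y z ≠ 0 := fun h => hc (cz_zero X h)
            have h4 := hp4 x y z hne
            have hlt : M < a z := by
              rcases hxy with h | h
              · exact lt_of_le_of_ne (by rw [← h]; exact h4.1) (Ne.symm hz)
              · exact lt_of_le_of_ne (by rw [← h]; exact h4.2) (Ne.symm hz)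
            have h5 := big x y z hlt hc
            rcases hxy with h | h <;> omega
      -- the cyclic identity
      have cyc : ∀ x y w, (if a w⁻¹ = M then cz X a x y w⁻¹ else 0) =
          if a x⁻¹ = M then cz X a y w x⁻¹ else 0 := by
        intro x y w
        obtain ⟨Z, hZ⟩ : ∃ Z : Finset W, Z = ((X.h x y).support.biUnion fun u => (X.h u w).support) ∪
          ((X.h y w).support.biUnion fun u => (X.h x u).support) := ⟨_, rfl⟩
        have hA : ∑ z ∈ Z, (if a z = M then nz X a z * ∑ u ∈ (X.h x y).support,
              (if a u = M then cz X a x y u * cz X a u w z else 0) else 0) =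
            ∑ z ∈ Z, (if a z = M then nz X a z * ∑ u ∈ (X.h y w).support,
              (if a u = M then cz X a y w u * cz X a x u z else 0) else 0) := by
          refine Finset.sum_congr rfl fun z _ => ?_
          by_cases hz : a z = M
          · rw [if_pos hz, if_pos hz, assoc2 X hrep hdeg hp4 x y w z hz]
          · rw [if_neg hz, if_neg hz]
        have hL : ∑ z ∈ Z, (if a z = M then nz X a z * ∑ u ∈ (X.h x y).support,
              (if a u = M then cz X a x y u * cz X a u w z else 0) else 0) =
            if a w⁻¹ = M then cz X a x y w⁻¹ else 0 := by
          have e1 : ∀ z ∈ Z, (if a z = M then nz X a z * ∑ u ∈ (X.h x y).support,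
              (if a u = M then cz X a x y u * cz X a u w z else 0) else 0) =
              ∑ u ∈ (X.h x y).support, (if a u = M then cz X a x y u *
                (if a z = M then cz X a u w z * nz X a z else 0) else 0) := by
            intro z _
            by_cases hz : a z = M
            · rw [if_pos hz, Finset.mul_sum]
              refine Finset.sum_congr rfl fun u _ => ?_
              by_cases hu : a u = M
              · rw [if_pos hu, if_pos hu, if_pos hz]
                ring
              · rw [if_neg hu, if_neg hu, mul_zero]
            · rw [if_neg hz]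
              symm
              refine Finset.sum_eq_zero fun u _ => ?_
              rw [if_neg hz, mul_zero, ite_self]
          rw [Finset.sum_congr rfl e1, Finset.sum_comm]
          have e2 : ∀ u ∈ (X.h x y).support, ∑ z ∈ Z, (if a u = M then cz X a x y u *
                (if a z = M then cz X a u w z * nz X a z else 0) else 0) =
              if u = w⁻¹ then (if a w⁻¹ = M then cz X a x y w⁻¹ else 0) else 0 := by
            intro u hu
            by_cases huM : a u = M
            · simp only [if_pos huM]
              rw [← Finset.mul_sum, tr u w Z ?_ (Or.inl huM)]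
              · by_cases huw : u = w⁻¹
                · rw [if_pos (by rw [huw, inv_mul_cancel]), if_pos huw, mul_one, ← huw, if_pos huM]
                · rw [if_neg (fun h => huw (eq_inv_of_mul_eq_one_left h)), if_neg huw, mul_zero]
              · rw [hZ]
                exact (Finset.subset_biUnion_of_mem (fun u => (X.h u w).support) hu).trans
                  Finset.subset_union_left
            · simp only [if_neg huM]
              rw [Finset.sum_const_zero]
              symm
              split_ifs with h1 h2
              · rw [h1] at huM
                exact absurd h2 huM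
              · rfl
              · rfl
          rw [Finset.sum_congr rfl e2, Finset.sum_ite_eq' _ w⁻¹]
          by_cases h5 : w⁻¹ ∈ (X.h x y).support
          · rw [if_pos h5]
          · rw [if_neg h5, cz_zero X (Finsupp.notMem_support_iff.1 h5), ite_self]
        have hR : ∑ z ∈ Z, (if a z = M then nz X a z * ∑ u ∈ (X.h y w).support,
              (if a u = M then cz X a y w u * cz X a x u z else 0) else 0) =
            if a x⁻¹ = M then cz X a y w x⁻¹ else 0 := by
          have e1 : ∀ z ∈ Z, (if a z = M then nz X a z * ∑ u ∈ (X.h y w).support,
              (if a u = M then cz X a y w u * cz X a x u z else 0) else 0) =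
              ∑ u ∈ (X.h y w).support, (if a u = M then cz X a y w u *
                (if a z = M then cz X a x u z * nz X a z else 0) else 0) := by
            intro z _
            by_cases hz : a z = M
            · rw [if_pos hz, Finset.mul_sum]
              refine Finset.sum_congr rfl fun u _ => ?_
              by_cases hu : a u = M
              · rw [if_pos hu, if_pos hu, if_pos hz]
                ring
              · rw [if_neg hu, if_neg hu, mul_zero]
            · rw [if_neg hz]
              symm
              refine Finset.sum_eq_zero fun u _ => ?_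
              rw [if_neg hz, mul_zero, ite_self]
          rw [Finset.sum_congr rfl e1, Finset.sum_comm]
          have e2 : ∀ u ∈ (X.h y w).support, ∑ z ∈ Z, (if a u = M then cz X a y w u *
                (if a z = M then cz X a x u z * nz X a z else 0) else 0) =
              if u = x⁻¹ then (if a x⁻¹ = M then cz X a y w x⁻¹ else 0) else 0 := by
            intro u hu
            by_cases huM : a u = M
            · simp only [if_pos huM]
              rw [← Finset.mul_sum, tr x u Z ?_ (Or.inr huM)]
              · by_cases huw : u = x⁻¹
                · rw [if_pos (by rw [huw, mul_inv_cancel]), if_pos huw, mul_one, ← huw, if_pos huM]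
                · rw [if_neg (fun h => huw (eq_inv_of_mul_eq_one_right h)), if_neg huw, mul_zero]
              · rw [hZ]
                exact (Finset.subset_biUnion_of_mem (fun u => (X.h x u).support) hu).trans
                  Finset.subset_union_right
            · simp only [if_neg huM]
              rw [Finset.sum_const_zero]
              symm
              split_ifs with h1 h2
              · rw [h1] at huM
                exact absurd h2 huM
              · rfl
              · rfl
          rw [Finset.sum_congr rfl e2, Finset.sum_ite_eq' _ x⁻¹]
          by_cases h5 : x⁻¹ ∈ (X.h y w).support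
          · rw [if_pos h5]
          · rw [if_neg h5, cz_zero X (Finsupp.notMem_support_iff.1 h5), ite_self]
        rw [← hL, hA, hR]
      intro x y z hz hne
      have c1 := cyc x y z⁻¹
      rw [inv_inv, if_pos hz] at c1
      have hx : a x⁻¹ = M := by
        by_contra h
        rw [if_neg h] at c1
        exact hne c1
      rw [if_pos hx] at c1
      have c2 := cyc y z⁻¹ x
      rw [if_pos hx] at c2
      have hy : a y⁻¹ = M := by
        by_contra h
        rw [if_neg h] at c2
        exact hne (c1.trans c2)
      exact ⟨by rw [← hinv x]; exact hx, by rw [← hinv y]; exact hy⟩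
  intro x y z h
  exact key (N + 1) (a z) (by omega) x y z rfl h

end Pool.Agent.Helper50.LL.IP8
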